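import Pool.Agent.Work.MP_21c964_co.Defs
import Pool.Agent.Work.MP_21c964_co.Limit

set_option autoImplicit false

open Filter Topology Pool.Agent.Work.MP_21c964_co

/-- **The maximum number of rainbow solutions of `x + y < z` in 3-colourings of `[1, n]`.**
The maximum `RM3 n` over all 3-colourings is attained and equals
`max_{0 ≤ a ≤ n/3} (a ⌊(n-a)²/4⌋ - C(a+2,3))`; consequently
`RM3 n = ((3√3 - 5)/6 + o(1)) n³`. -/
theorem Pool.Agent.Results.MP_21c964_co.RainbowMaximum.result :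
    (∀ n : ℕ, IsGreatest {N : ℕ | ∃ χ : ℕ → Fin 3, N = (rainbowSolutions n χ).card} (RM3 n) ∧
      RM3 n = (Finset.range (n / 3 + 1)).sup
        (fun a : ℕ => a * ((n - a) ^ 2 / 4) - (a + 2).choose 3)) ∧
    Tendsto (fun n : ℕ => (RM3 n : ℝ) / (n : ℝ) ^ 3) atTop (𝓝 ((3 * √3 - 5) / 6)) := by
  refine ⟨fun n => ⟨?_, RM3_eq_formula n⟩, ?_⟩
  · rw [RM3_eq_formula n]
    exact isGreatest_formula n
  · simp only [RM3_eq_formula]
    exact tendsto_formula
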